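import Mathlib

/-!
# L-functions with their analytic properties: the definitions used in the statements
-/

set_option autoImplicit false

namespace Pool.Agent.U849.TE

open Filter Topology Complex

/-- Product of inverse gamma factors `1 / Γ_ℝ(s + μ_j)`. -/
noncomputable def invGamma (μ : List ℂ) (s : ℂ) : ℂ := (μ.map fun m => (Gammaℝ (s + m))⁻¹).prod

/-- Finite product of inverse Euler factors `1 - b p^{-s}`. -/
noncomputable def finEuler (l : List (ℕ × ℂ)) (s : ℂ) : ℂ :=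
  (l.map fun x => 1 - x.2 * (x.1 : ℂ) ^ (-s)).prod

/-- `N/D` is the continuation of the Euler product over the primes outside `S` with the multisets of parameters `B p`;
`N` and `D` are entire of order at most `3/2`. -/
structure Continuation (S : Finset ℕ) (B : ℕ → Multiset ℂ) (N D : ℂ → ℂ) : Prop where
  entire_N : Differentiable ℂ N
  entire_D : Differentiable ℂ D
  order : ∃ C : ℝ, ∀ s, ‖N s‖ ≤ Real.exp (C * (1 + ‖s‖) ^ (3 / 2 : ℝ)) ∧
    ‖D s‖ ≤ Real.exp (C * (1 + ‖s‖) ^ (3 / 2 : ℝ))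
  ne_zero : ∀ s : ℂ, 1 < s.re → D s ≠ 0
  euler : ∀ s : ℂ, 1 < s.re → Tendsto (fun X : ℕ =>
    ∏ p ∈ (Finset.range X).filter (fun p => p.Prime ∧ p ∉ S),
      ((B p).map fun b => (1 - b * (p : ℂ) ^ (-s))⁻¹).prod) atTop (𝓝 (N s / D s))

/-- The functional equation `Λ(s) = ε Λ'(1 - s)` between `N/D` and the dual `N'/D'`, where
`Λ(s) = q^s · (invGamma μ s)⁻¹ · finEuler l' s / finEuler m s · N s / D s` and
`Λ'(s) = q^s · (invGamma μ' s)⁻¹ · finEuler m' s / finEuler l s · N' s / D' s`. -/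
def FunctionalEquation (S : Finset ℕ) (N D N' D' : ℂ → ℂ) : Prop :=
  ∃ (μ μ' : List ℂ) (l l' m m' : List (ℕ × ℂ)) (q : ℝ) (ε : ℂ), 0 < q ∧ ε ≠ 0 ∧
    (∀ x ∈ l, x.1.Prime ∧ x.1 ∈ S) ∧ (∀ x ∈ l', x.1.Prime ∧ x.1 ∈ S) ∧
    (∀ x ∈ m, x.1.Prime ∧ x.1 ∈ S) ∧ (∀ x ∈ m', x.1.Prime ∧ x.1 ∈ S) ∧
    ∀ s, (q : ℂ) ^ s * invGamma μ' (1 - s) * finEuler l (1 - s) * finEuler l' s * (N s * D' (1 - s)) =
      ε * (q : ℂ) ^ (1 - s) * invGamma μ s * finEuler m s * finEuler m' (1 - s) * (N' (1 - s) * D s)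

/-- The L-function of the family `B` (parameters at the primes outside `S`) is nice: the parameters and their inverses
are bounded by a power of `p`, and the L-function and its dual (inverse parameters; the inverse of `0` is `0`) have a
continuation and a functional equation. -/
structure NiceL (S : Finset ℕ) (B : ℕ → Multiset ℂ) : Prop where
  bound : ∃ A : ℝ, ∀ p : ℕ, p.Prime → p ∉ S → ∀ b ∈ B p, ‖b‖ ≤ (p : ℝ) ^ A ∧ ‖b⁻¹‖ ≤ (p : ℝ) ^ A
  analytic : ∃ N D N' D' : ℂ → ℂ, Continuation S B N D ∧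
    Continuation S (fun p => (B p).map fun b => b⁻¹) N' D' ∧ FunctionalEquation S N D N' D'

/-- The size of the parameters at the primes of `E` is at most `w p`. -/
def SmallAt (S : Finset ℕ) (E : Set ℕ) (w : ℕ → ℝ) (B : ℕ → Multiset ℂ) : Prop :=
  ∀ p : ℕ, p.Prime → p ∉ S → p ∈ E → ∀ b ∈ B p, ‖b‖ ≤ w p ∧ ‖b⁻¹‖ ≤ w p

/-- `E` is thin, for parameters of size `w p`. -/
def ThinSet (S : Finset ℕ) (E : Set ℕ) (w : ℕ → ℝ) : Prop :=
  (∀ p : ℕ, p.Prime → p ∉ S → p ∈ E → 0 ≤ w p ∧ w p < √p) ∧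
    Summable fun p : {p : ℕ // (p.Prime ∧ p ∉ S) ∧ p ∈ E} =>
      Real.log (p : ℕ) * (w p / (√(p : ℕ) - w p))

end Pool.Agent.U849.TE
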