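import Pool.Agent.U849.TE.Ms
import Pool.Agent.U849.TE.Def

/-!
# The relation principle in terms of `NiceL`, and equality outside a thin set
-/

set_option autoImplicit false

namespace Pool.Agent.U849.TE

open Filter Topology Complex

/-- **relations between nice L-functions outside a thin set** -/
theorem rel_nice {J : Type*} [Fintype J] {S : Finset ℕ} {n : J → ℕ} {B : J → ℕ → Multiset ℂ}
    {c : J → ℝ} (hN : ∀ j, NiceL S (B j))
    (hcard : ∀ j, ∀ p : ℕ, p.Prime → p ∉ S → (B j p).card = n j)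
    {E : Set ℕ} {w : ℕ → ℝ} (hE : ThinSet S E w) (hS : ∀ j, SmallAt S E w (B j))
    (hrel : ∀ p : ℕ, p.Prime → p ∉ S → p ∉ E → ∀ k,
      ∑ j, (c j : ℂ) * ((B j p).map fun x => x ^ (k + 1)).sum = 0)
    (hrel' : ∀ p : ℕ, p.Prime → p ∉ S → p ∉ E → ∀ k,
      ∑ j, (c j : ℂ) * ((B j p).map fun x => (x⁻¹) ^ (k + 1)).sum = 0) :
    ∀ p : ℕ, p.Prime → p ∉ S → ∀ k, ∑ j, (c j : ℂ) * ((B j p).map fun x => x ^ (k + 1)).sum = 0 := by
  classical
  choose A0 hA0 using fun j => (hN j).bound
  choose N D N' D' hC hC' hF using fun j => (hN j).analytic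
  choose μ μ' l l' m m' q ε hq hε hl hl' hm hm' hf using hF
  refine rel_ms (S := S) (n := n) (B := B) (μ := μ) (μ' := μ') (N := N)
    (D := D) (N' := N') (D' := D') (c := c) (A := ∑ o, |A0 o|) (E := E) (w := w)
    (Finset.sum_nonneg fun o _ => abs_nonneg _) hcard
    (fun o => half_ms (hcard o) id (hC o).entire_N (hC o).entire_D (hC o).order
      (hC o).ne_zero (hC o).euler)
    (fun o => half_ms (hcard o) (fun b => b⁻¹) (hC' o).entire_N (hC' o).entire_D
      (hC' o).order (hC' o).ne_zero ?_)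
    (fun o => ⟨l o, l' o, m o, m' o, q o, ε o, hq o, hε o, hl o, hl' o, hm o, hm' o, hf o⟩)
    ?_ hE.1 hS hE.2 hrel hrel'
  · intro s hs
    refine ((hC' o).euler s hs).congr fun X => ?_
    refine Finset.prod_congr rfl fun p _ => ?_
    rw [Multiset.map_map]
    rfl
  · intro o p hp hpS b hb
    have h3 : (p : ℝ) ^ A0 o ≤ (p : ℝ) ^ (∑ o, |A0 o|) := by
      refine Real.rpow_le_rpow_of_exponent_le (by exact_mod_cast hp.one_lt.le) ?_
      exact (le_abs_self _).trans
        (Finset.single_le_sum (f := fun o => |A0 o|) (fun _ _ => abs_nonneg _) (Finset.mem_univ o))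
    exact ⟨(hA0 o p hp hpS b hb).1.trans h3, (hA0 o p hp hpS b hb).2.trans h3⟩

/-- **two nice families which agree outside a thin set agree** -/
theorem eq_of_thin {S : Finset ℕ} {n : ℕ} {B C : ℕ → Multiset ℂ} (hB : NiceL S B) (hC : NiceL S C)
    (hcB : ∀ p : ℕ, p.Prime → p ∉ S → (B p).card = n)
    (hcC : ∀ p : ℕ, p.Prime → p ∉ S → (C p).card = n)
    {E : Set ℕ} {w : ℕ → ℝ} (hE : ThinSet S E w) (hSB : SmallAt S E w B) (hSC : SmallAt S E w C)
    (h : ∀ p : ℕ, p.Prime → p ∉ S → p ∉ E → B p = C p) (p : ℕ) (hp : p.Prime) (hpS : p ∉ S) :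
    B p = C p := by
  refine ms_ext (by rw [hcB p hp hpS, hcC p hp hpS]) fun k => ?_
  have h1 := rel_nice (J := Bool) (S := S) (n := fun _ => n) (B := fun b => if b then B else C)
    (c := fun b => if b then 1 else -1) (fun b => by cases b <;> simp [hB, hC])
    (fun b p hp hpS => by cases b <;> simp [hcB p hp hpS, hcC p hp hpS]) hE
    (fun b => by cases b <;> simp [hSB, hSC])
    (fun p hp hpS hpE k => by simp [Fintype.sum_bool, h p hp hpS hpE])
    (fun p hp hpS hpE k => by simp [Fintype.sum_bool, h p hp hpS hpE]) p hp hpS k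
  simp only [Fintype.sum_bool, if_true, Bool.false_eq_true, if_false] at h1
  push_cast at h1
  linear_combination h1

end Pool.Agent.U849.TE
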