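import Pool.Agent.U253.EEA.Rel2

/-!
# Euler products with parameters bounded by a power of `p`

The conversion of an Euler product into the Dirichlet series of its logarithmic derivative, without a uniform bound of
the parameters.
-/

set_option autoImplicit false

namespace Pool.Agent.U849.TE

open Filter Topology Complex Set Pool.Agent.N210.FV Pool.Agent.N210.FW Pool.Agent.N845.SP
open scoped ArithmeticFunction.vonMangoldt

/-- the parameters are bounded by `p ^ A` -/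
def Gr (S : Finset ℕ) (I : Finset ℕ) (β : ℕ → ℕ → ℂ) (A : ℝ) : Prop :=
  ∀ p : PS S, ∀ i ∈ I, ‖β p i‖ ≤ ((p : ℕ) : ℝ) ^ A

variable {S I : Finset ℕ} {β : ℕ → ℕ → ℂ} {A : ℝ}

theorem ppow_inj (S : Finset ℕ) : Function.Injective fun i : PS S × ℕ => (i.1 : ℕ) ^ (i.2 + 1) := by
  rintro ⟨p, k⟩ ⟨q, l⟩ h
  simp only at h
  have h1 : ((k + 1 : ℕ) : ℝ) * Real.log (p : ℕ) = ((l + 1 : ℕ) : ℝ) * Real.log (q : ℕ) := by
    rw [← Real.log_pow, ← Real.log_pow]
    congr 1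
    exact_mod_cast h
  have h2 := prime_pow_log p.2.1 q.2.1 (a := k + 1) (b := l + 1) (by omega) h1
  refine Prod.ext (Subtype.ext h2.1) ?_
  have := h2.2
  simp only
  omega

theorem summ_pp (S : Finset ℕ) {x : ℝ} (hx : 1 < x) :
    Summable fun i : PS S × ℕ => Real.log (i.1 : ℕ) * Real.exp (-(oo S 1 i * x)) := by
  refine ((summ_real hx).comp_injective (ppow_inj S)).congr fun i => ?_
  have hp := i.1.pos
  simp only [Function.comp_apply]
  rw [ArithmeticFunction.vonMangoldt_apply_pow (by omega), i.1.lam]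
  congr 1
  push_cast
  rw [← Real.rpow_natCast, ← Real.rpow_mul hp.le, Real.rpow_def_of_pos hp]
  unfold oo
  congr 1
  push_cast
  ring

theorem ps_le (h : Gr S I β A) (p : PS S) (k : ℕ) :
    ‖ps I β p k‖ ≤ I.card * (((p : ℕ) : ℝ) ^ A) ^ k := by
  unfold ps
  refine (norm_sum_le _ _).trans ?_
  have h2 : ∀ i ∈ I, ‖β p i ^ k‖ ≤ (((p : ℕ) : ℝ) ^ A) ^ k := by
    intro i hi
    rw [norm_pow]
    exact pow_le_pow_left₀ (norm_nonneg _) (h p i hi) k
  refine (Finset.sum_le_card_nsmul _ _ _ h2).trans ?_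
  rw [nsmul_eq_mul]

theorem pow_exp (p : PS S) (A σ : ℝ) (k : ℕ) : (((p : ℕ) : ℝ) ^ A) ^ (k + 1) *
    Real.exp (-(oo S 1 (p, k) * σ)) = Real.exp (-(oo S 1 (p, k) * (σ - A))) := by
  have hp := p.pos
  rw [← Real.rpow_natCast, ← Real.rpow_mul hp.le, Real.rpow_def_of_pos hp, ← Real.exp_add]
  unfold oo
  congr 1
  push_cast
  ring

theorem Gr.summ (h : Gr S I β A) {σ : ℝ} (hσ : A + 1 < σ) :
    Summable fun i : PS S × ℕ => ‖aa S 1 (ps I β) i‖ * Real.exp (-(oo S 1 i * σ)) := by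
  refine Summable.of_nonneg_of_le (fun i => by positivity) (fun i => ?_)
    ((summ_pp S (x := σ - A) (by linarith)).mul_left (I.card : ℝ))
  obtain ⟨p, k⟩ := i
  have hl := p.log_pos
  unfold aa
  rw [norm_mul, Complex.norm_real, Real.norm_of_nonneg hl.le]
  have h1 := ps_le h p (k + 1)
  simp only
  calc ‖ps I β p (k + 1)‖ * Real.log (p : ℕ) * Real.exp (-(oo S 1 (p, k) * σ))
      ≤ (I.card * (((p : ℕ) : ℝ) ^ A) ^ (k + 1)) * Real.log (p : ℕ) *
        Real.exp (-(oo S 1 (p, k) * σ)) := by gcongr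
    _ = I.card * (Real.log (p : ℕ) * ((((p : ℕ) : ℝ) ^ A) ^ (k + 1) *
        Real.exp (-(oo S 1 (p, k) * σ)))) := by ring
    _ = _ := by rw [pow_exp]

theorem Gr.summC (h : Gr S I β A) {s : ℂ} (hs : A + 1 < s.re) :
    Summable fun i : PS S × ℕ => aa S 1 (ps I β) i * exp (-(oo S 1 i : ℂ) * s) := by
  refine Summable.of_norm ?_
  simp_rw [norm_ds_term]
  exact h.summ hs

theorem Gr.summ_bt (h : Gr S I β A) {σ : ℝ} (hσ : A + 1 < σ) :
    Summable fun i : PS S × ℕ => ‖bt S (ps I β) i‖ * Real.exp (-(oo S 1 i * σ)) := by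
  have h1 := (h.summ hσ).mul_left (1 / Real.log 2)
  refine Summable.of_nonneg_of_le (fun i => by positivity) (fun i => ?_) h1
  have hl : Real.log 2 ≤ Real.log (i.1 : ℕ) := Real.log_le_log (by norm_num)
    (by exact_mod_cast i.1.2.1.two_le)
  have hl2 : 0 < Real.log 2 := Real.log_pos (by norm_num)
  have h2 : ‖bt S (ps I β) i‖ ≤ 1 / Real.log 2 * ‖aa S 1 (ps I β) i‖ := by
    unfold bt aa
    rw [norm_div, norm_mul, Complex.norm_real, Real.norm_of_nonneg i.1.log_pos.le]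
    have h3 : (1 : ℝ) ≤ ‖((i.2 : ℂ) + 1)‖ := by
      have : ((i.2 : ℂ) + 1) = ((i.2 + 1 : ℝ) : ℂ) := by push_cast; rfl
      rw [this, Complex.norm_real, Real.norm_of_nonneg (by positivity)]
      have : (0 : ℝ) ≤ i.2 := Nat.cast_nonneg _
      linarith
    calc ‖ps I β i.1 (i.2 + 1)‖ / ‖((i.2 : ℂ) + 1)‖ ≤ ‖ps I β i.1 (i.2 + 1)‖ :=
          div_le_self (norm_nonneg _) h3
      _ = 1 / Real.log 2 * (‖ps I β i.1 (i.2 + 1)‖ * Real.log 2) := by field_simp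
      _ ≤ 1 / Real.log 2 * (‖ps I β i.1 (i.2 + 1)‖ * Real.log (i.1 : ℕ)) := by gcongr
  calc _ ≤ (1 / Real.log 2 * ‖aa S 1 (ps I β) i‖) * Real.exp (-(oo S 1 i * σ)) := by gcongr
    _ = _ := by ring

/-- the sum over the powers of one prime -/
theorem one_prime' (h : Gr S I β A) (p : PS S) {s : ℂ} (hs : A + 1 < s.re) :
    exp (∑' k : ℕ, bt S (ps I β) (p, k) * exp (-(oo S 1 (p, k) : ℂ) * s)) =
      ∏ i ∈ I, (1 - β p i * ((p : ℕ) : ℂ) ^ (-s))⁻¹ := by
  have hu : ∀ i ∈ I, ‖β p i * ((p : ℕ) : ℂ) ^ (-s)‖ < 1 := by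
    intro i hi
    have h1 : ‖((p : ℕ) : ℂ) ^ (-s)‖ = ((p : ℕ) : ℝ) ^ (-s.re) := by
      rw [← ofReal_natCast, Complex.norm_cpow_eq_rpow_re_of_pos p.pos, neg_re]
    rw [norm_mul, h1]
    have h4 : 0 < ((p : ℕ) : ℝ) ^ (-s.re) := Real.rpow_pos_of_pos p.pos _
    calc ‖β p i‖ * ((p : ℕ) : ℝ) ^ (-s.re) ≤ ((p : ℕ) : ℝ) ^ A * ((p : ℕ) : ℝ) ^ (-s.re) := by
          gcongr
          exact h p i hi
      _ = ((p : ℕ) : ℝ) ^ (A - s.re) := by rw [← Real.rpow_add p.pos]; rfl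
      _ < 1 := Real.rpow_lt_one_of_one_lt_of_neg p.one_lt (by linarith)
  have h1 : ∀ k : ℕ, bt S (ps I β) (p, k) * exp (-(oo S 1 (p, k) : ℂ) * s) =
      ∑ i ∈ I, (β p i * ((p : ℕ) : ℂ) ^ (-s)) ^ (k + 1) / (k + 1) := by
    intro k
    unfold bt ps oo
    rw [Finset.sum_div, Finset.sum_mul]
    refine Finset.sum_congr rfl fun i _ => ?_
    rw [mul_pow, cp p.2.1.ne_zero, ← exp_nat_mul]
    push_cast
    have e : -(((k : ℂ) + 1) * log ((p : ℕ) : ℂ)) * s = ((k : ℂ) + 1) * (-log ((p : ℕ) : ℂ) * s) := by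
      ring
    simp only [e]
    ring
  simp_rw [h1]
  rw [Summable.tsum_finsetSum (fun i hi => (exp_log_series (hu i hi)).summable), exp_sum]
  refine Finset.prod_congr rfl fun i hi => ?_
  rw [(exp_log_series (hu i hi)).tsum_eq, exp_neg_log (hu i hi)]

/-- the partial Euler products converge -/
theorem eul' (h : Gr S I β A) {s : ℂ} (hs : A + 1 < s.re) :
    Tendsto (fun X : ℕ => ∏ p ∈ (Finset.range X).filter (fun p => p.Prime ∧ p ∉ S), ∏ i ∈ I,
      (1 - β p i * (p : ℂ) ^ (-s))⁻¹) atTop (𝓝 (exp (Ds (bt S (ps I β)) (oo S 1) s))) := by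
  classical
  have h1 : Summable fun i : PS S × ℕ => bt S (ps I β) i * exp (-(oo S 1 i : ℂ) * s) := by
    refine Summable.of_norm ((h.summ_bt hs).congr fun i => ?_)
    rw [norm_mul, Complex.norm_exp, neg_mul, neg_re, re_ofReal_mul]
  have h2 := h1.hasSum.prod_fiberwise (fun p => (h1.prod_factor p).hasSum)
  set g : ℕ → ℂ := fun p => if hp : p.Prime ∧ p ∉ S then
    ∑' k : ℕ, bt S (ps I β) (⟨p, hp⟩, k) * exp (-(oo S 1 (⟨p, hp⟩, k) : ℂ) * s) else 0 with hg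
  have h3 : HasSum g (Ds (bt S (ps I β)) (oo S 1) s) := by
    rw [← Function.Injective.hasSum_iff (g := fun p : PS S => (p : ℕ)) Subtype.val_injective]
    · have e : (g ∘ fun p : PS S => (p : ℕ)) = fun p : PS S =>
          ∑' k : ℕ, bt S (ps I β) (p, k) * exp (-(oo S 1 (p, k) : ℂ) * s) := by
        funext p
        simp only [Function.comp_apply, hg]
        rw [dif_pos p.2]
      rw [e]
      exact h2
    · intro x hx
      simp only [hg]
      rw [dif_neg]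
      intro hp
      exact hx ⟨⟨x, hp⟩, rfl⟩
  have h4 := (continuous_exp.tendsto _).comp h3.tendsto_sum_nat
  refine h4.congr fun X => ?_
  simp only [Function.comp_apply]
  rw [exp_sum, Finset.prod_filter]
  refine Finset.prod_congr rfl fun p _ => ?_
  simp only [hg]
  split_ifs with hp
  · exact one_prime' h ⟨p, hp⟩ hs
  · exact exp_zero

/-- the data of one L-function `N/D`; the Dirichlet series of the logarithmic derivative for `Re s > σ₁` -/
structure LFA (S : Finset ℕ) (F : ℕ → ℕ → ℂ) (N D : ℂ → ℂ) (σ₁ : ℝ) : Prop where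
  entN : Ent N
  entD : Ent D
  summ : ∀ s : ℂ, σ₁ < s.re → Summable fun i : PS S × ℕ => aa S 1 F i * exp (-(oo S 1 i : ℂ) * s)
  ld : ∀ s : ℂ, σ₁ < s.re → logDeriv N s - logDeriv D s = -Ds (aa S 1 F) (oo S 1) s
  fe : ∃ (μ : List ℂ) (l l' : List (ℕ × ℂ)) (q : ℝ) (ε : ℂ), 0 < q ∧ ε ≠ 0 ∧
    (∀ x ∈ l, x.1.Prime ∧ x.1 ∈ S) ∧ (∀ x ∈ l', x.1.Prime ∧ x.1 ∈ S) ∧
    ∀ s, (q : ℂ) ^ s * gi μ (1 - s) * ef l (1 - s) * ef l' s * (N s * D (1 - s)) =
      ε * (q : ℂ) ^ (1 - s) * gi μ s * ef l s * ef l' (1 - s) * (N (1 - s) * D s)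

theorem nd' {μ : List ℂ} {N D : ℂ → ℂ} (hL : LG S I β μ N D) (h : Gr S I β A) (hA : 0 ≤ A) {s : ℂ}
    (hs : A + 1 < s.re) : N s = D s * exp (Ds (bt S (ps I β)) (oo S 1) s) := by
  have h1 : (1 : ℝ) < s.re := by linarith
  have h3 := tendsto_nhds_unique (hL.euler s h1) (eul' h hs)
  rw [div_eq_iff (hL.ne s h1)] at h3
  rw [h3]
  ring

theorem toLFA {μ : List ℂ} {N D : ℂ → ℂ} (hL : LG S I β μ N D) (h : Gr S I β A) (hA : 0 ≤ A) :
    LFA S (ps I β) N D (A + 1) := by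
  refine ⟨?_, hL.entD, fun s hs => h.summC hs, fun s hs => ?_, ?_⟩
  · obtain ⟨C, hC⟩ := hL.order
    refine ⟨hL.diffN, ⟨((A + 2 : ℝ) : ℂ), fun h0 => ?_⟩, C, fun s => (hC s).1⟩
    have h1 := nd' hL h hA (s := ((A + 2 : ℝ) : ℂ)) (by rw [ofReal_re]; linarith)
    rw [h0] at h1
    exact mul_ne_zero (hL.ne _ (by rw [ofReal_re]; linarith)) (exp_ne_zero _) h1.symm
  · have hd : HasDerivAt (Ds (bt S (ps I β)) (oo S 1)) _ s :=
      Ds_hasDeriv (σ := (A + 1 + s.re) / 2) (h.summ_bt (by linarith)) (fun i => oo_nonneg 1 i)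
        (by linarith)
    have h1 : N =ᶠ[𝓝 s] fun s => D s * exp (Ds (bt S (ps I β)) (oo S 1) s) := by
      filter_upwards [(isOpen_lt continuous_const continuous_re).mem_nhds hs] with u hu
      exact nd' hL h hA hu
    rw [(logDeriv_congr_nhds h1).eq_of_nhds, logDeriv_mul (f := D) (g := fun s =>
      exp (Ds (bt S (ps I β)) (oo S 1) s)) s (hL.ne s (by linarith)) (exp_ne_zero _) (hL.diffD s)
      hd.cexp.differentiableAt]
    have h2 : logDeriv (fun s => exp (Ds (bt S (ps I β)) (oo S 1) s)) s =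
        -Ds (aa S 1 (ps I β)) (oo S 1) s := by
      rw [logDeriv_apply, hd.cexp.deriv, mul_div_cancel_left₀ _ (exp_ne_zero _)]
      simp_rw [bt_mul]
    rw [h2]
    ring
  · obtain ⟨l, l', q, ε, hq, hε, hl, hl', hfe⟩ := hL.fe
    exact ⟨μ, l, l', q, ε, hq, hε, hl, hl', hfe⟩

end Pool.Agent.U849.TE
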