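import Pool.Agent.U849.TE.Pair

/-!
# The relation principle for multisets of parameters
-/

set_option autoImplicit false

namespace Pool.Agent.U849.TE

open Filter Topology Complex Set Pool.Agent.N210.FV Pool.Agent.N210.FW Pool.Agent.N845.SP
  Pool.Agent.U253.EEA

/-- the elements of a multiset in some order -/
noncomputable def sq (B : Multiset ℂ) (i : ℕ) : ℂ := B.toList.getD i 0

theorem list_prod_getD {M : Type*} [CommMonoid M] (f : ℂ → M) (l : List ℂ) :
    ∏ i ∈ Finset.range l.length, f (l.getD i 0) = (l.map f).prod := by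
  induction l with
  | nil => simp
  | cons a l ih =>
    rw [List.length_cons, Finset.prod_range_succ', List.map_cons, List.prod_cons, mul_comm]
    simp only [List.getD_cons_zero, List.getD_cons_succ]
    rw [ih]

theorem list_sum_getD {M : Type*} [AddCommMonoid M] (f : ℂ → M) (l : List ℂ) :
    ∑ i ∈ Finset.range l.length, f (l.getD i 0) = (l.map f).sum := by
  induction l with
  | nil => simp
  | cons a l ih =>
    rw [List.length_cons, Finset.sum_range_succ', List.map_cons, List.sum_cons, add_comm]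
    simp only [List.getD_cons_zero, List.getD_cons_succ]
    rw [ih]

theorem prod_sq {M : Type*} [CommMonoid M] (B : Multiset ℂ) {n : ℕ} (hn : B.card = n) (f : ℂ → M) :
    ∏ i ∈ Finset.range n, f (sq B i) = (B.map f).prod := by
  subst hn
  conv_rhs => rw [← Multiset.coe_toList B]
  rw [Multiset.map_coe, Multiset.prod_coe, ← list_prod_getD, Multiset.length_toList]
  rfl

theorem sum_sq {M : Type*} [AddCommMonoid M] (B : Multiset ℂ) {n : ℕ} (hn : B.card = n) (f : ℂ → M) :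
    ∑ i ∈ Finset.range n, f (sq B i) = (B.map f).sum := by
  subst hn
  conv_rhs => rw [← Multiset.coe_toList B]
  rw [Multiset.map_coe, Multiset.sum_coe, ← list_sum_getD, Multiset.length_toList]
  rfl

theorem sq_mem (B : Multiset ℂ) {n : ℕ} (hn : B.card = n) {i : ℕ} (hi : i < n) : sq B i ∈ B := by
  unfold sq
  have h1 : i < B.toList.length := by rw [Multiset.length_toList, hn]; exact hi
  rw [List.getD_eq_getElem _ _ h1, ← Multiset.mem_toList]
  exact List.getElem_mem h1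

/-- power sums determine a multiset -/
theorem ms_ext {B C : Multiset ℂ} (h0 : B.card = C.card)
    (h : ∀ k : ℕ, (B.map fun x => x ^ (k + 1)).sum = (C.map fun x => x ^ (k + 1)).sum) : B = C := by
  classical
  have h1 : ∀ P : Polynomial ℂ, (B.map fun x => P.eval x).sum = (C.map fun x => P.eval x).sum := by
    intro P
    have e : ∀ D : Multiset ℂ, (D.map fun x => P.eval x).sum =
        ∑ k ∈ Finset.range (P.natDegree + 1), P.coeff k * (D.map fun x => x ^ k).sum := by
      intro D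
      simp_rw [Polynomial.eval_eq_sum_range]
      have : ∀ k ∈ Finset.range (P.natDegree + 1), P.coeff k * (D.map fun x => x ^ k).sum =
          (D.map fun x => P.coeff k * x ^ k).sum := fun k _ => (Multiset.sum_map_mul_left).symm
      rw [Finset.sum_congr rfl this]
      exact Multiset.sum_map_sum_map D (Finset.range (P.natDegree + 1)).val (f := fun x k => P.coeff k * x ^ k)
    rw [e, e]
    refine Finset.sum_congr rfl fun k _ => ?_
    congr 1
    rcases k with _ | k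
    · simp [h0]
    · exact h k
  rw [Multiset.ext]
  intro x
  set F := (B.toFinset ∪ C.toFinset).erase x with hF
  set P : Polynomial ℂ := ∏ y ∈ F, (Polynomial.X - Polynomial.C y) with hP
  have hx : P.eval x ≠ 0 := by
    rw [hP, Polynomial.eval_prod, Finset.prod_ne_zero_iff]
    intro y hy
    rw [Polynomial.eval_sub, Polynomial.eval_X, Polynomial.eval_C, sub_ne_zero]
    exact (Finset.ne_of_mem_erase hy).symm
  have hy : ∀ y ∈ B.toFinset ∪ C.toFinset, y ≠ x → P.eval y = 0 := by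
    intro y hy hyx
    rw [hP, Polynomial.eval_prod, Finset.prod_eq_zero (Finset.mem_erase.2 ⟨hyx, hy⟩)]
    simp
  have e : ∀ D : Multiset ℂ, D.toFinset ⊆ B.toFinset ∪ C.toFinset →
      (D.map fun y => P.eval y).sum = D.count x * P.eval x := by
    intro D hD
    rw [Finset.sum_multiset_map_count]
    by_cases hxD : x ∈ D.toFinset
    · rw [Finset.sum_eq_single_of_mem x hxD fun y hy' hyx => by rw [hy y (hD hy') hyx, smul_zero],
        nsmul_eq_mul]
    · rw [Finset.sum_eq_zero fun y hy' => by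
        rw [hy y (hD hy') (fun h => hxD (h ▸ hy')), smul_zero]]
      rw [Multiset.count_eq_zero_of_notMem (by simpa using hxD)]
      simp
  have h2 := h1 P
  rw [e B Finset.subset_union_left, e C Finset.subset_union_right] at h2
  exact_mod_cast mul_right_cancel₀ hx h2

/-- the hypotheses on one L-function, in terms of multisets -/
theorem half_ms {S : Finset ℕ} {B : ℕ → Multiset ℂ} {n : ℕ} {N D : ℂ → ℂ}
    (hcard : ∀ p : ℕ, p.Prime → p ∉ S → (B p).card = n) (g : ℂ → ℂ) (hN : Differentiable ℂ N)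
    (hD : Differentiable ℂ D)
    (ho : ∃ C : ℝ, ∀ s, ‖N s‖ ≤ Real.exp (C * (1 + ‖s‖) ^ (3 / 2 : ℝ)) ∧
      ‖D s‖ ≤ Real.exp (C * (1 + ‖s‖) ^ (3 / 2 : ℝ)))
    (hne : ∀ s : ℂ, 1 < s.re → D s ≠ 0)
    (he : ∀ s : ℂ, 1 < s.re → Tendsto (fun X : ℕ =>
      ∏ p ∈ (Finset.range X).filter (fun p => p.Prime ∧ p ∉ S),
        ((B p).map fun b => (1 - g b * (p : ℂ) ^ (-s))⁻¹).prod) atTop (𝓝 (N s / D s))) :
    Half S n (fun p i => g (sq (B p) i)) N D := by
  refine ⟨hN, hD, ho, hne, fun s hs => (he s hs).congr fun X => ?_⟩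
  refine Finset.prod_congr rfl fun p hp => ?_
  rw [Finset.mem_filter] at hp
  rw [← prod_sq (B p) (hcard p hp.2.1 hp.2.2)]

/-- **the relation principle** for multisets of parameters and their inverses -/
theorem rel_ms {J : Type*} [Fintype J] {S : Finset ℕ} {n : J → ℕ} {B : J → ℕ → Multiset ℂ}
    {μ μ' : J → List ℂ} {N D N' D' : J → ℂ → ℂ} {c : J → ℝ} {A : ℝ} (hA : 0 ≤ A)
    (hcard : ∀ j, ∀ p : ℕ, p.Prime → p ∉ S → (B j p).card = n j)
    (hL : ∀ j, Half S (n j) (fun p i => sq (B j p) i) (N j) (D j))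
    (hL' : ∀ j, Half S (n j) (fun p i => (sq (B j p) i)⁻¹) (N' j) (D' j))
    (hF : ∀ j, FEq S (μ j) (μ' j) (N j) (D j) (N' j) (D' j))
    (hβ : ∀ j, ∀ p : ℕ, p.Prime → p ∉ S → ∀ b ∈ B j p, ‖b‖ ≤ (p : ℝ) ^ A ∧ ‖b⁻¹‖ ≤ (p : ℝ) ^ A)
    {E : Set ℕ} {w : ℕ → ℝ} (hw0 : ∀ p : ℕ, p.Prime → p ∉ S → p ∈ E → 0 ≤ w p ∧ w p < √p)
    (hw : ∀ j, ∀ p : ℕ, p.Prime → p ∉ S → p ∈ E → ∀ b ∈ B j p, ‖b‖ ≤ w p ∧ ‖b⁻¹‖ ≤ w p)
    (hE : Summable fun p : {p : ℕ // (p.Prime ∧ p ∉ S) ∧ p ∈ E} =>
      Real.log (p : ℕ) * (w p / (√(p : ℕ) - w p)))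
    (hrel : ∀ p : ℕ, p.Prime → p ∉ S → p ∉ E → ∀ k,
      ∑ j, (c j : ℂ) * ((B j p).map fun x => x ^ (k + 1)).sum = 0)
    (hrel' : ∀ p : ℕ, p.Prime → p ∉ S → p ∉ E → ∀ k,
      ∑ j, (c j : ℂ) * ((B j p).map fun x => (x⁻¹) ^ (k + 1)).sum = 0) :
    ∀ p : ℕ, p.Prime → p ∉ S → ∀ k, ∑ j, (c j : ℂ) * ((B j p).map fun x => x ^ (k + 1)).sum = 0 := by
  classical
  have e : ∀ p : ℕ, p.Prime → p ∉ S → ∀ k, GG c (fun j => ps (Finset.range (n j))
      (fun p i => sq (B j p) i)) p k = ∑ j, (c j : ℂ) * ((B j p).map fun x => x ^ k).sum := by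
    intro p hp hpS k
    unfold GG ps
    refine Finset.sum_congr rfl fun j _ => ?_
    beta_reduce
    rw [sum_sq (B j p) (hcard j p hp hpS) fun x => x ^ k]
  have e' : ∀ p : ℕ, p.Prime → p ∉ S → ∀ k, GG c (fun j => ps (Finset.range (n j))
      (fun p i => (sq (B j p) i)⁻¹)) p k =
        ∑ j, (c j : ℂ) * ((B j p).map fun x => (x⁻¹) ^ k).sum := by
    intro p hp hpS k
    unfold GG ps
    refine Finset.sum_congr rfl fun j _ => ?_
    beta_reduce
    rw [sum_sq (B j p) (hcard j p hp hpS) fun x => (x⁻¹) ^ k]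
  intro p hp hpS k
  have h1 := thin_pair (c := c) hA hL hL' hF
    (fun j p i hi => hβ j p p.2.1 p.2.2 _ (sq_mem _ (hcard j p p.2.1 p.2.2) hi))
    (thin_of (fun p hp hpS hpE => ⟨(hw0 p hp hpS hpE).1, (hw0 p hp hpS hpE).2, fun j i hi =>
      (hw j p hp hpS hpE _ (sq_mem _ (hcard j p hp hpS) hi)).1⟩) hE
      fun p hp hpS hpE k => by rw [e p hp hpS]; exact hrel p hp hpS hpE k)
    (thin_of (fun p hp hpS hpE => ⟨(hw0 p hp hpS hpE).1, (hw0 p hp hpS hpE).2, fun j i hi =>
      (hw j p hp hpS hpE _ (sq_mem _ (hcard j p hp hpS) hi)).2⟩) hE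
      fun p hp hpS hpE k => by rw [e' p hp hpS]; exact hrel' p hp hpS hpE k) ⟨p, hp, hpS⟩ k
  rw [e p hp hpS] at h1
  exact h1

end Pool.Agent.U849.TE
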