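import Pool.Agent.U849.TE.Zero

/-!
# Relations outside a thin set, L-functions which are not self-dual
-/

set_option autoImplicit false

namespace Pool.Agent.U849.TE

open Filter Topology Complex Set Pool.Agent.N210.FV Pool.Agent.N210.FW Pool.Agent.N845.SP
  Pool.Agent.U253.EEA

theorem ps_le_sum {S : Finset ℕ} {n : ℕ} {β : ℕ → ℕ → ℂ} {w : ℝ} (p : PS S)
    (h : ∀ i < n, ‖β p i‖ ≤ w) (k : ℕ) : ‖ps (Finset.range n) β p k‖ ≤ n * w ^ k := by
  unfold ps
  refine (norm_sum_le _ _).trans ?_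
  have h2 : ∀ i ∈ Finset.range n, ‖β p i ^ k‖ ≤ w ^ k := by
    intro i hi
    rw [norm_pow]
    exact pow_le_pow_left₀ (norm_nonneg _) (h i (Finset.mem_range.1 hi)) k
  refine (Finset.sum_le_card_nsmul _ _ _ h2).trans ?_
  rw [nsmul_eq_mul, Finset.card_range]

/-- the geometric series at one prime of the thin set -/
theorem hasSum_geo {p : ℕ} (hp : p.Prime) {w : ℝ} (h0 : 0 ≤ w) (h1 : w < √p) :
    HasSum (fun k : ℕ => w ^ (k + 1) * Real.exp (-((k + 1 : ℕ) * Real.log p * (1 / 2))))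
      (w / (√p - w)) := by
  have hp0 : (0 : ℝ) < p := by exact_mod_cast hp.pos
  have hs : 0 < √(p : ℝ) := Real.sqrt_pos.2 hp0
  have e : ∀ k : ℕ, Real.exp (-((k + 1 : ℕ) * Real.log p * (1 / 2))) = ((√(p : ℝ))⁻¹) ^ (k + 1) := by
    intro k
    have h2 : (√(p : ℝ))⁻¹ = Real.exp (-(Real.log p * (1 / 2))) := by
      rw [Real.sqrt_eq_rpow, ← Real.rpow_neg hp0.le, Real.rpow_def_of_pos hp0]
      congr 1
      ring
    rw [h2, ← Real.exp_nat_mul]
    congr 1
    push_cast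
    ring
  simp_rw [e]
  have h3 : ∀ k : ℕ, w ^ (k + 1) * ((√(p : ℝ))⁻¹) ^ (k + 1) = (w / √(p : ℝ)) * (w / √(p : ℝ)) ^ k := by
    intro k
    rw [div_eq_mul_inv, ← mul_pow, pow_succ]
    ring
  simp_rw [h3]
  have h4 : w / √(p : ℝ) < 1 := (div_lt_one hs).2 h1
  have h5 := (hasSum_geometric_of_lt_one (by positivity) h4).mul_left (w / √(p : ℝ))
  have h6 : √(p : ℝ) * (1 - w / √(p : ℝ)) = √(p : ℝ) - w := by
    rw [mul_sub, mul_one, mul_div_cancel₀ _ hs.ne']
  rw [← div_eq_mul_inv (w / √(p : ℝ)), div_div, h6] at h5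
  exact h5

/-- a combination supported at a thin set is thin -/
theorem thin_of {J : Type*} [Fintype J] {S : Finset ℕ} {n : J → ℕ} {β : J → ℕ → ℕ → ℂ}
    {c : J → ℝ} {E : Set ℕ} {w : ℕ → ℝ}
    (hw : ∀ p : ℕ, p.Prime → p ∉ S → p ∈ E → 0 ≤ w p ∧ w p < √p ∧ ∀ j, ∀ i < n j, ‖β j p i‖ ≤ w p)
    (hE : Summable fun p : {p : ℕ // (p.Prime ∧ p ∉ S) ∧ p ∈ E} =>
      Real.log (p : ℕ) * (w p / (√(p : ℕ) - w p)))
    (hrel : ∀ p : ℕ, p.Prime → p ∉ S → p ∉ E → ∀ k,
      GG c (fun j => ps (Finset.range (n j)) (β j)) p (k + 1) = 0) :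
    Thin S (GG c fun j => ps (Finset.range (n j)) (β j)) := by
  classical
  set G := GG c fun j => ps (Finset.range (n j)) (β j) with hG
  set K : ℝ := ∑ j, |c j| * n j with hK
  have hK0 : 0 ≤ K := Finset.sum_nonneg fun j _ => by positivity
  -- the majorant
  set f : PS S × ℕ → ℝ := fun i => if (i.1 : ℕ) ∈ E then K * (Real.log (i.1 : ℕ) *
    (w i.1 ^ (i.2 + 1) * Real.exp (-((i.2 + 1 : ℕ) * Real.log (i.1 : ℕ) * (1 / 2))))) else 0 with hf
  have hf0 : ∀ i, 0 ≤ f i := by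
    rintro ⟨p, k⟩
    simp only [hf]
    split_ifs with h
    · have := (hw p p.2.1 p.2.2 h).1
      have := p.log_pos
      positivity
    · exact le_rfl
  have hfs : Summable f := by
    rw [summable_prod_of_nonneg hf0]
    have hsum : ∀ p : PS S, HasSum (fun k => f (p, k)) (if (p : ℕ) ∈ E then
        K * (Real.log (p : ℕ) * (w p / (√(p : ℕ) - w p))) else 0) := by
      intro p
      simp only [hf]
      split_ifs with h
      · have h1 := hw p p.2.1 p.2.2 h
        exact (((hasSum_geo p.2.1 h1.1 h1.2.1).mul_left _)).mul_left _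
      · exact hasSum_zero
    refine ⟨fun p => (hsum p).summable, ?_⟩
    have e : (fun p : PS S => ∑' k, f (p, k)) = fun p : PS S => (if (p : ℕ) ∈ E then
        K * (Real.log (p : ℕ) * (w p / (√(p : ℕ) - w p))) else 0) := funext fun p => (hsum p).tsum_eq
    rw [e]
    have h2 : Summable ((fun p : PS S => (if (p : ℕ) ∈ E then
        K * (Real.log (p : ℕ) * (w p / (√(p : ℕ) - w p))) else 0)) ∘
        fun p : {p : ℕ // (p.Prime ∧ p ∉ S) ∧ p ∈ E} => (⟨p, p.2.1⟩ : PS S)) := by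
      refine (hE.mul_left K).congr fun p => ?_
      simp only [Function.comp_apply]
      rw [if_pos p.2.2]
    refine (Function.Injective.summable_iff ?_ ?_).1 h2
    · intro p q hpq
      exact Subtype.ext (congrArg (fun x : PS S => (x : ℕ)) hpq)
    · intro p hp
      rw [if_neg]
      intro h
      exact hp ⟨⟨p, p.2, h⟩, rfl⟩
  refine Summable.of_nonneg_of_le (fun i => by positivity) ?_ hfs
  rintro ⟨p, k⟩
  simp only [hf]
  have hl := p.log_pos
  unfold aa
  rw [norm_mul, Complex.norm_real, Real.norm_of_nonneg hl.le]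
  split_ifs with h
  · obtain ⟨h0, h1, h2⟩ := hw p p.2.1 p.2.2 h
    have h3 : ‖G p (k + 1)‖ ≤ K * w p ^ (k + 1) := by
      rw [hG, hK]
      unfold GG
      refine (norm_sum_le _ _).trans ?_
      rw [Finset.sum_mul]
      refine Finset.sum_le_sum fun j _ => ?_
      rw [norm_mul, Complex.norm_real, Real.norm_eq_abs, mul_assoc]
      exact mul_le_mul_of_nonneg_left (ps_le_sum p (h2 j) _) (abs_nonneg _)
    have e : Real.exp (-(oo S 1 (p, k) * (1 / 2))) =
        Real.exp (-((k + 1 : ℕ) * Real.log (p : ℕ) * (1 / 2))) := by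
      unfold oo
      push_cast
      rfl
    rw [e]
    calc ‖G p (k + 1)‖ * Real.log (p : ℕ) * Real.exp (-((k + 1 : ℕ) * Real.log (p : ℕ) * (1 / 2)))
        ≤ (K * w p ^ (k + 1)) * Real.log (p : ℕ) *
          Real.exp (-((k + 1 : ℕ) * Real.log (p : ℕ) * (1 / 2))) := by gcongr
      _ = _ := by ring
  · have h3 : G p (k + 1) = 0 := hrel p p.2.1 p.2.2 h k
    simp only [h3, norm_zero, zero_mul]
    exact le_rfl

theorem GG_bt2 {J : Type*} [Fintype J] {n : J → ℕ} {β β' : J → ℕ → ℕ → ℂ} {c : J → ℝ} (t : ℝ)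
    (p k : ℕ) : GG c (fun j => ps (Finset.range (n j + n j)) (bt2 t (n j) (β j) (β' j))) p k =
      ((p : ℂ) ^ (-(t * I))) ^ k * GG c (fun j => ps (Finset.range (n j)) (β j)) p k +
        ((p : ℂ) ^ (t * I)) ^ k * GG c (fun j => ps (Finset.range (n j)) (β' j)) p k := by
  unfold GG
  rw [Finset.mul_sum, Finset.mul_sum, ← Finset.sum_add_distrib]
  refine Finset.sum_congr rfl fun j _ => ?_
  simp only [ps_bt2]
  ring

/-- **the relation principle for thin exceptional sets** -/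
theorem thin_pair {J : Type*} [Fintype J] {S : Finset ℕ} {n : J → ℕ}
    {β β' : J → ℕ → ℕ → ℂ} {μ μ' : J → List ℂ} {N D N' D' : J → ℂ → ℂ} {c : J → ℝ} {A : ℝ}
    (hA : 0 ≤ A) (hL : ∀ j, Half S (n j) (β j) (N j) (D j))
    (hL' : ∀ j, Half S (n j) (β' j) (N' j) (D' j))
    (hF : ∀ j, FEq S (μ j) (μ' j) (N j) (D j) (N' j) (D' j))
    (hβ : ∀ j, ∀ p : PS S, ∀ i < n j, ‖β j p i‖ ≤ ((p : ℕ) : ℝ) ^ A ∧ ‖β' j p i‖ ≤ ((p : ℕ) : ℝ) ^ A)
    (hT : Thin S (GG c fun j => ps (Finset.range (n j)) (β j)))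
    (hT' : Thin S (GG c fun j => ps (Finset.range (n j)) (β' j))) (p : PS S) (k : ℕ) :
    GG c (fun j => ps (Finset.range (n j)) (β j)) p (k + 1) = 0 := by
  classical
  set X := GG c (fun j => ps (Finset.range (n j)) (β j)) p (k + 1) with hX
  set Y := GG c (fun j => ps (Finset.range (n j)) (β' j)) p (k + 1) with hY
  have h1 : ∀ t : ℝ, (((p : ℕ) : ℂ) ^ (-(t * I))) ^ (k + 1) * X +
      (((p : ℕ) : ℂ) ^ (t * I)) ^ (k + 1) * Y = 0 := by
    intro t
    have hLF : ∀ j, LFA S (ps (Finset.range (n j + n j)) (bt2 t (n j) (β j) (β' j)))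
        (fun s => N j (s + t * I) * N' j (s + -(t * I)))
        (fun s => D j (s + t * I) * D' j (s + -(t * I))) (A + 1) := fun j =>
      toLFA ((hL j).pair (hL' j) (hF j) t) (fun p i hi => bt2_le p.2.1.pos (hβ j p) i hi) hA
    have hTt : Thin S (GG c fun j => ps (Finset.range (n j + n j)) (bt2 t (n j) (β j) (β' j))) := by
      refine Summable.of_nonneg_of_le (fun i => by positivity) (fun i => ?_) (Summable.add hT hT')
      obtain ⟨q, m⟩ := i
      have hl := q.log_pos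
      unfold aa
      simp only [norm_mul, Complex.norm_real, Real.norm_of_nonneg hl.le]
      rw [GG_bt2]
      have h2 := norm_add_le ((((q : ℕ) : ℂ) ^ (-(t * I))) ^ (m + 1) *
        GG c (fun j => ps (Finset.range (n j)) (β j)) q (m + 1))
        ((((q : ℕ) : ℂ) ^ (t * I)) ^ (m + 1) * GG c (fun j => ps (Finset.range (n j)) (β' j)) q (m + 1))
      rw [norm_mul, norm_mul, norm_pow, norm_pow, norm_pit q.2.1.pos, norm_pit' q.2.1.pos, one_pow,
        one_mul, one_mul] at h2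
      have h3 : 0 < Real.exp (-(oo S 1 (q, m) * (1 / 2))) := Real.exp_pos _
      calc _ ≤ (‖GG c (fun j => ps (Finset.range (n j)) (β j)) q (m + 1)‖ +
            ‖GG c (fun j => ps (Finset.range (n j)) (β' j)) q (m + 1)‖) * Real.log (q : ℕ) *
            Real.exp (-(oo S 1 (q, m) * (1 / 2))) := by gcongr
        _ = _ := by ring
    have h4 := zeroA hLF hTt p k
    rw [GG_bt2] at h4
    exact h4
  have hp0 : ((p : ℕ) : ℂ) ≠ 0 := by exact_mod_cast p.2.1.ne_zero
  have hlog : 0 < Real.log (p : ℕ) := p.log_pos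
  have h0 := h1 0
  simp only [ofReal_zero, zero_mul, neg_zero, cpow_zero, one_pow, one_mul] at h0
  have h2 := h1 (Real.pi / (2 * (k + 1) * Real.log (p : ℕ)))
  have e1 : (((p : ℕ) : ℂ) ^ ((Real.pi / (2 * (k + 1) * Real.log (p : ℕ)) : ℝ) * I)) ^ (k + 1) = I := by
    rw [← cpow_nat_mul, cpow_def_of_ne_zero hp0, ← natCast_log]
    have : ((Real.log (p : ℕ) : ℝ) : ℂ) * (((k + 1 : ℕ) : ℂ) *
        (((Real.pi / (2 * (k + 1) * Real.log (p : ℕ)) : ℝ) : ℂ) * I)) = Real.pi / 2 * I := by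
      have hl : ((Real.log (p : ℕ) : ℝ) : ℂ) ≠ 0 := by exact_mod_cast hlog.ne'
      have hk : ((k : ℂ) + 1) ≠ 0 := by exact_mod_cast Nat.succ_ne_zero k
      push_cast
      have hlp : Complex.log ((p : ℕ) : ℂ) = ((Real.log (p : ℕ) : ℝ) : ℂ) := by rw [natCast_log]
      rw [hlp]
      field_simp
    rw [this, exp_pi_div_two_mul_I]
  have e2 : (((p : ℕ) : ℂ) ^ (-((Real.pi / (2 * (k + 1) * Real.log (p : ℕ)) : ℝ) * I))) ^ (k + 1) =
      -I := by
    rw [cpow_neg, inv_pow, e1, inv_I]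
  rw [e1, e2] at h2
  have h3 : X = Y := by
    have h4 : I * (Y - X) = 0 := by linear_combination h2
    rcases mul_eq_zero.1 h4 with h5 | h5
    · exact absurd h5 I_ne_zero
    · exact (sub_eq_zero.1 h5).symm
  rw [← h3] at h0
  have h4 : 2 * X = 0 := by linear_combination h0
  simpa using h4

end Pool.Agent.U849.TE
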