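import Pool.Agent.U849.TE.Eul

/-!
# A combination of L-functions whose local parameters cancel outside a thin set of primes

The Dirichlet series of the combination of logarithmic derivatives converges absolutely on the closed half plane
`Re s ≥ 1/2`. Then it vanishes identically.
-/

set_option autoImplicit false

namespace Pool.Agent.U849.TE

open Filter Topology Complex Set Pool.Agent.N210.FV Pool.Agent.N210.FW Pool.Agent.N845.SP

section

variable {J' : Type*} [Fintype J'] {c : J' → ℝ} {S : Finset ℕ} {F : J' → ℕ → ℕ → ℂ}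
  {N D : J' → ℂ → ℂ} {σ₁ : ℝ}

theorem gg_entA (h : ∀ j, LFA S (F j) (N j) (D j) σ₁) (x : J' × Bool) : Ent (gg N D x) := by
  unfold gg
  split_ifs
  · exact (h x.1).entN
  · exact (h x.1).entD

theorem Ds_linA (h : ∀ j, LFA S (F j) (N j) (D j) σ₁) {s : ℂ} (hs : σ₁ < s.re) :
    ∑ j, (c j : ℂ) * Ds (aa S 1 (F j)) (oo S 1) s = Ds (aa S 1 (GG c F)) (oo S 1) s := by
  unfold Ds
  have h3 : ∀ j ∈ Finset.univ, (c j : ℂ) * ∑' i : PS S × ℕ, aa S 1 (F j) i *
      exp (-(oo S 1 i : ℂ) * s) = ∑' i : PS S × ℕ, (c j : ℂ) * (aa S 1 (F j) i *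
      exp (-(oo S 1 i : ℂ) * s)) := fun j _ => tsum_mul_left.symm
  rw [Finset.sum_congr rfl h3, ← Summable.tsum_finsetSum]
  · refine tsum_congr fun i => ?_
    unfold aa GG
    rw [Finset.sum_mul, Finset.sum_mul]
    exact Finset.sum_congr rfl fun j _ => by ring
  · intro j _
    exact ((h j).summ s hs).mul_left _

/-- absolute convergence on the closed half plane -/
def Thin (S : Finset ℕ) (G : ℕ → ℕ → ℂ) : Prop :=
  Summable fun i : PS S × ℕ => ‖aa S 1 G i‖ * Real.exp (-(oo S 1 i * (1 / 2)))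

theorem Thin.mono {G : ℕ → ℕ → ℂ} (hT : Thin S G) {σ : ℝ} (hσ : 1 / 2 ≤ σ) :
    Summable fun i : PS S × ℕ => ‖aa S 1 G i‖ * Real.exp (-(oo S 1 i * σ)) := by
  refine Summable.of_nonneg_of_le (fun i => by positivity) (fun i => ?_) hT
  have := oo_nonneg 1 i
  gcongr

theorem Thin.diffOn {G : ℕ → ℕ → ℂ} (hT : Thin S G) :
    DifferentiableOn ℂ (Ds (aa S 1 G) (oo S 1)) {s | 1 / 2 < s.re} := by
  intro s hs
  have hs : 1 / 2 < s.re := hs
  have h1 := Ds_hasDeriv (σ := (1 / 2 + s.re) / 2) (b := aa S 1 G) (om := oo S 1)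
    (hT.mono (by linarith)) (fun i => oo_nonneg 1 i)
    (s := s) (by linarith)
  exact h1.differentiableAt.differentiableWithinAt

/-- the sum of the absolute values on the line -/
noncomputable def BB (S : Finset ℕ) (G : ℕ → ℕ → ℂ) : ℝ :=
  ∑' i : PS S × ℕ, ‖aa S 1 G i‖ * Real.exp (-(oo S 1 i * (1 / 2)))

theorem BB_nonneg (G : ℕ → ℕ → ℂ) : 0 ≤ BB S G := tsum_nonneg fun i => by positivity

theorem Thin.le {G : ℕ → ℕ → ℂ} (hT : Thin S G) {s : ℂ} (hs : 1 / 2 ≤ s.re) :
    ‖Ds (aa S 1 G) (oo S 1) s‖ ≤ BB S G := by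
  unfold Ds BB
  refine tsum_of_norm_bounded hT.hasSum fun i => ?_
  rw [norm_ds_term]
  have := oo_nonneg 1 i
  gcongr

theorem rightA (h : ∀ j, LFA S (F j) (N j) (D j) σ₁) (hT : Thin S (GG c F)) (s : ℂ)
    (hs : 1 / 2 < s.re) :
    mm (ww c) (gg N D) s = 0 ∧ AA (ww c) (gg N D) s = -Ds (aa S 1 (GG c F)) (oo S 1) s := by
  have h1 : DifferentiableOn ℂ (fun s => -Ds (aa S 1 (GG c F)) (oo S 1) s) {s | 1 / 2 < s.re} :=
    hT.diffOn.neg
  refine right_of (fun i => (gg_entA h i).diff) (fun i => (gg_entA h i).ne) (σ₁ := σ₁) h1 ?_ s hs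
  intro s hs _
  rw [A0_gg]
  have h2 : ∀ j ∈ Finset.univ, (c j : ℂ) * (logDeriv (N j) s - logDeriv (D j) s) =
      -((c j : ℂ) * Ds (aa S 1 (F j)) (oo S 1) s) := by
    intro j _
    rw [(h j).ld s hs]
    ring
  rw [Finset.sum_congr rfl h2, Finset.sum_neg_distrib, Ds_linA h hs]

/-- no zeros on the line -/
theorem line0 (h : ∀ j, LFA S (F j) (N j) (D j) σ₁) (hT : Thin S (GG c F)) (z : ℂ)
    (hz : z.re = 1 / 2) : mm (ww c) (gg N D) z = 0 := by
  have hdiff := fun i => (gg_entA h i).diff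
  have hne := fun i => (gg_entA h i).ne
  have h0' : Tendsto (fun δ : ℝ => (δ : ℂ)) (𝓝[>] 0) (𝓝 0) := by
    have := (continuous_ofReal.tendsto (0 : ℝ))
    rw [ofReal_zero] at this
    exact this.mono_left nhdsWithin_le_nhds
  have h1 : Tendsto (fun δ : ℝ => z + (δ : ℂ)) (𝓝[>] 0) (𝓝[≠] z) := by
    rw [tendsto_nhdsWithin_iff]
    constructor
    · simpa using h0'.const_add z
    · filter_upwards [self_mem_nhdsWithin] with δ hδ
      have hδ : (0 : ℝ) < δ := hδ
      simp [hδ.ne']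
  have h2 := (AA_pole (w := ww c) hdiff hne z).comp h1
  have h3 := h0'.mul h2
  rw [zero_mul] at h3
  have h4 : Tendsto (fun δ : ℝ => (δ : ℂ) * AA (ww c) (gg N D) (z + δ)) (𝓝[>] 0) (𝓝 0) := by
    have hK : ∀ᶠ δ : ℝ in 𝓝[>] 0, ‖(δ : ℂ) * AA (ww c) (gg N D) (z + δ)‖ ≤
        ‖(δ : ℂ)‖ * BB S (GG c F) := by
      filter_upwards [self_mem_nhdsWithin] with δ hδ
      have hδ : (0 : ℝ) < δ := hδ
      have e : (z + (δ : ℂ)).re = 1 / 2 + δ := by rw [add_re, hz, ofReal_re]
      rw [norm_mul, (rightA h hT (z + δ) (by rw [e]; linarith)).2, norm_neg]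
      exact mul_le_mul_of_nonneg_left (hT.le (by rw [e]; linarith)) (norm_nonneg _)
    refine squeeze_zero_norm' hK ?_
    have h5 := h0'.norm.mul_const (BB S (GG c F))
    simpa using h5
  have h5 : Tendsto (fun δ : ℝ => (mm (ww c) (gg N D) z : ℂ)) (𝓝[>] 0) (𝓝 (0 - 0)) := by
    refine (h4.sub h3).congr' ?_
    filter_upwards [self_mem_nhdsWithin] with δ hδ
    have hδ : (0 : ℝ) < δ := hδ
    have hδ0 : (δ : ℂ) ≠ 0 := by exact_mod_cast hδ.ne'
    simp only [Function.comp_apply, add_sub_cancel_left]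
    field_simp
    ring
  rw [sub_zero] at h5
  have h6 := tendsto_nhds_unique h5 tendsto_const_nhds
  exact_mod_cast h6.symm

/-- **the coefficients vanish** -/
theorem zeroA (h : ∀ j, LFA S (F j) (N j) (D j) σ₁) (hT : Thin S (GG c F)) (p₀ : PS S) (k₀ : ℕ) :
    GG c F p₀ (k₀ + 1) = 0 := by
  classical
  choose μ l l' q ε hq hε hl hl' hfe using fun j => (h j).fe
  set i₀ : PS S × ℕ := (p₀, k₀) with hi₀
  set ω : ℝ := oo S 1 i₀ with hω
  have hω0 : 0 < ω := oo_pos (by norm_num) i₀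
  have hωe : ω = ((k₀ + 1 : ℕ) : ℝ) * Real.log (p₀ : ℕ) := by
    rw [hω, hi₀]
    unfold oo
    push_cast
    ring
  have hfreq : ∀ x : ℕ, x.Prime → x ∈ S → Real.log x ≠ 0 ∧ ∀ n : ℤ, ω ≠ n * Real.log x := by
    intro x hx hxS
    have hlog : 0 < Real.log x := Real.log_pos (by exact_mod_cast hx.one_lt)
    refine ⟨hlog.ne', fun n hn => ?_⟩
    have h1 : 0 < (n : ℝ) := by
      by_contra hcon
      push Not at hcon
      have := mul_nonpos_of_nonpos_of_nonneg hcon hlog.le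
      linarith
    have h2 : 0 < n := by exact_mod_cast h1
    obtain ⟨m, rfl⟩ := Int.eq_ofNat_of_zero_le h2.le
    rw [hωe] at hn
    have h3 := prime_pow_log p₀.2.1 hx (a := k₀ + 1) (b := m) (by omega) (by exact_mod_cast hn)
    exact p₀.2.2 (h3.1 ▸ hxS)
  set H : ℂ → ℂ := fun s => ∑ j, (c j : ℂ) * HH (μ j) (l j) (l' j) (q j) s with hH
  have hTm : Tame ω H := Tame.sum hω0.ne' Finset.univ fun j _ =>
    (HH_tame hω0.ne' (μ j) (q j) (fun x hx => hfreq x.1 (hl j x hx).1 (hl j x hx).2)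
      (fun x hx => hfreq x.1 (hl' j x hx).1 (hl' j x hx).2)).const_mul (c j : ℂ)
  obtain ⟨η₀, hη₀, hTm⟩ := hTm
  set η : ℝ := min η₀ (1 / 4) / 2 with hη
  have hη1 : 0 < min η₀ (1 / 4) := lt_min hη₀ (by norm_num)
  have hη0 : 0 < η := by positivity
  have hη2 : η < η₀ := by
    have := min_le_left η₀ (1 / 4)
    linarith
  have hη4 : η < 1 / 4 := by
    have := min_le_right η₀ (1 / 4)
    linarith
  obtain ⟨hc, hn, C1, hC1, hC1b⟩ := hTm η hη0 hη2
  have hdiff := fun i => (gg_entA h i).diff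
  have hne := fun i => (gg_entA h i).ne
  have hBB := BB_nonneg (S := S) (GG c F)
  set C : ℝ := 1 + C1 + BB S (GG c F) with hC
  have hset : Setup (ww c) (gg N D) (aa S 1 (GG c F)) (oo S 1) i₀ η H C 0 := by
    refine ⟨gg_entA h, fun i => oo_nonneg 1 i, hω0, ?_, hη0, hη4, by linarith, ?_, ?_, ?_, hn, ?_,
      ?_, ?_⟩
    · rintro ⟨p, k⟩ hne' heq
      apply hne'
      unfold oo at heq
      have h3 := prime_pow_log p.2.1 p₀.2.1 (a := k + 1) (b := k₀ + 1) (by omega) (by
        push_cast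
        simpa [hi₀] using heq)
      rw [hi₀]
      refine Prod.ext (Subtype.ext h3.1) ?_
      have := h3.2
      simp only
      omega
    · exact hT.mono (by linarith)
    · exact rightA h hT
    · intro s hs hs2
      have hs3 : 1 / 2 < (1 - s).re := by
        rw [sub_re, one_re]
        linarith
      refine AA_of_eq (B := fun s => Ds (aa S 1 (GG c F)) (oo S 1) (1 - s) + H s) hdiff hne ?_ ?_
      · refine ContinuousAt.add ?_ (hc s hs hs2)
        have h3 : ContinuousAt (Ds (aa S 1 (GG c F)) (oo S 1)) (1 - s) :=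
          (hT.diffOn.differentiableAt ((isOpen_lt continuous_const continuous_re).mem_nhds
            hs3)).continuousAt
        exact ContinuousAt.comp (f := fun s : ℂ => 1 - s) h3 (by fun_prop)
      · have e1 : ∀ᶠ u in 𝓝[≠] s, 1 / 2 < (1 - u).re := by
          refine mem_nhdsWithin_of_mem_nhds ?_
          have : IsOpen {u : ℂ | 1 / 2 < (1 - u).re} :=
            isOpen_lt continuous_const (continuous_re.comp (continuous_const.sub continuous_id))
          exact this.mem_nhds hs3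
        have e2 : ∀ᶠ u in 𝓝[≠] s, ∀ i, gg N D i (1 - u) ≠ 0 := by
          rw [eventually_all]
          exact fun i => ev_refl (fun z => ev_ne (hdiff i) (hne i) z) s
        have e3 : ∀ᶠ u in 𝓝[≠] s, ∀ j, gi (μ j) u ≠ 0 ∧ gi (μ j) (1 - u) ≠ 0 ∧
            ef (l j) u ≠ 0 ∧ ef (l j) (1 - u) ≠ 0 ∧ ef (l' j) u ≠ 0 ∧ ef (l' j) (1 - u) ≠ 0 := by
          rw [eventually_all]
          intro j
          have a1 : ∀ z, ∀ᶠ u in 𝓝[≠] z, gi (μ j) u ≠ 0 := ev_ne (gi_diff _) (gi_ne _)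
          have a2 : ∀ z, ∀ᶠ u in 𝓝[≠] z, ef (l j) u ≠ 0 := ef_ev fun x hx => (hl j x hx).1.one_lt
          have a3 : ∀ z, ∀ᶠ u in 𝓝[≠] z, ef (l' j) u ≠ 0 := ef_ev fun x hx => (hl' j x hx).1.one_lt
          filter_upwards [a1 s, ev_refl a1 s, a2 s, ev_refl a2 s, a3 s, ev_refl a3 s] with
            u b1 b2 b3 b4 b5 b6
          exact ⟨b1, b2, b3, b4, b5, b6⟩
        filter_upwards [e1, e2, e3] with u h1 h2 h3 h4
        have h5 : A0 (ww c) (gg N D) (1 - u) = -Ds (aa S 1 (GG c F)) (oo S 1) (1 - u) := by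
          rw [← AA_eq hdiff hne h2]
          exact (rightA h hT (1 - u) h1).2
        have h6 : A0 (ww c) (gg N D) u = -A0 (ww c) (gg N D) (1 - u) + H u := by
          rw [A0_gg, A0_gg, hH, ← Finset.sum_neg_distrib, ← Finset.sum_add_distrib]
          refine Finset.sum_congr rfl fun j _ => ?_
          obtain ⟨b1, b2, b3, b4, b5, b6⟩ := h3 j
          have t1 := h4 (j, true)
          have t2 := h4 (j, false)
          have t3 := h2 (j, true)
          have t4 := h2 (j, false)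
          simp only [gg, if_true, Bool.false_eq_true, if_false] at t1 t2 t3 t4
          rw [fe_ld (h j).entN.diff (h j).entD.diff (hq j) (hε j)
            (fun x hx => (hl j x hx).1.ne_zero) (fun x hx => (hl' j x hx).1.ne_zero) (hfe j)
            t1 t3 t2 t4 b1 b2 b3 b4 b5 b6]
          ring
        rw [h6, h5, neg_neg]
    · intro s hs hs2
      have h4 : 0 < s.re - 1 / 2 := by linarith
      refine (hT.le hs.le).trans ?_
      rw [le_div_iff₀ h4]
      nlinarith
    · intro s hs hs2 hs3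
      refine (hC1b s hs hs2 (by linarith)).trans ?_
      have h4 : 0 < 1 / 2 - s.re := by linarith
      gcongr
      linarith
    · intro Z hZ
      refine (Finset.sum_eq_zero fun z hz => ?_).le
      rw [line0 h hT z (hZ z hz)]
      norm_num
  have hz := hset.zero
  unfold aa at hz
  have hlog : ((Real.log (p₀ : ℕ) : ℝ) : ℂ) ≠ 0 := by exact_mod_cast p₀.log_pos.ne'
  exact (mul_eq_zero.1 hz).resolve_right hlog

end

end Pool.Agent.U849.TE
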